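import Pool.Agent.H8.AV3.Stmts3

/-!
# AV3 stage 2: module ST9

Stabilisers of the forms of the Selmer group have at most nine elements modulo scalars.
-/

set_option autoImplicit false

namespace Pool.Agent.H69.AV3B

open Polynomial Matrix Pool.AVR Pool.AV3

/-- The discriminant of a triple over an extension. -/
theorem dsc_k3 {F : Type} [Field F] {L : Type} [Field L] (ι : RatFunc F →+* L)
    (f : F[X] × F[X] × F[X]) :
    dsc (k3 ι f) = ι (algebraMap F[X] (RatFunc F) (disc f.1 f.2.1 f.2.2)) := by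
  simp only [dsc, k3, disc, AVS.kf, map_sub, map_mul, map_pow, map_add, map_ofNat]

/-- A bound for the stabilisers over an extension gives a bound over `F(t)`. -/
theorem stb_transfer {F : Type} [Field F] {L : Type} [Field L] (ι : RatFunc F →+* L)
    (c : Fin 10 → RatFunc F) (s : ℕ)
    (hL : ∀ T : Finset (Matrix (Fin 3) (Fin 3) L), (∀ g ∈ T, Eqv g (fun i => ι (c i))
      (fun i => ι (c i))) → (∀ g ∈ T, ∀ g' ∈ T, g ≠ g' → ∀ r : L, g' ≠ r • g) → T.card ≤ s)
    (T : Finset (Matrix (Fin 3) (Fin 3) (RatFunc F))) (hT : ∀ g ∈ T, Eqv g c c)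
    (hne : ∀ g ∈ T, ∀ g' ∈ T, g ≠ g' → ∀ r : RatFunc F, g' ≠ r • g) : T.card ≤ s := by
  classical
  have hinj : Function.Injective
      (fun g : Matrix (Fin 3) (Fin 3) (RatFunc F) => g.map ι) := by
    intro g g' h
    ext i j
    have := congrFun (congrFun h i) j
    exact ι.injective this
  rw [← Finset.card_image_of_injective T hinj]
  apply hL
  · intro g hg
    obtain ⟨g₀, hg₀, rfl⟩ := Finset.mem_image.1 hg
    exact (hT g₀ hg₀).map ι
  · intro g hg g' hg' hgg r hr
    obtain ⟨g₀, hg₀, rfl⟩ := Finset.mem_image.1 hg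
    obtain ⟨g₁, hg₁, rfl⟩ := Finset.mem_image.1 hg'
    have h01 : g₀ ≠ g₁ := fun h => hgg (by rw [h])
    have hdet : g₀.det ≠ 0 := (hT g₀ hg₀).1.ne_zero
    obtain ⟨i, j, hij⟩ : ∃ i j, g₀ i j ≠ 0 := by
      by_contra hcon
      push Not at hcon
      apply hdet
      rw [Matrix.det_fin_three]
      simp only [hcon]
      ring
    have hr' : ∀ a b, ι (g₁ a b) = r * ι (g₀ a b) := by
      intro a b
      have := congrFun (congrFun hr a) b
      simpa [Matrix.map_apply, Matrix.smul_apply] using this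
    have hri : r = ι (g₁ i j / g₀ i j) := by
      rw [map_div₀, hr' i j, mul_div_cancel_right₀]
      exact (map_ne_zero ι).2 hij
    apply hne g₀ hg₀ g₁ hg₁ h01 (g₁ i j / g₀ i j)
    ext a b
    apply ι.injective
    rw [hr' a b, Matrix.smul_apply, smul_eq_mul, map_mul, ← hri]

theorem st9_thm (hSTL : STLStmt) (hTOR3 : TOR3Stmt) (hINF3 : INF3Stmt) (hSEC : SECStmt) :
    ST9Stmt := by
  intro F _ _ h2 n f hf c hc T hT hne
  classical
  obtain ⟨L, _, O, ι, hcomp, hcls⟩ := ((hSEC F h2 f).1 c hc).1 X monic_X irreducible_X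
  have hdisc : dsc (k3 ι f) ≠ 0 := by
    rw [dsc_k3, _root_.map_ne_zero]
    have := hf.1.2
    simpa using this
  have h3 : (3 : L) ≠ 0 ∨ (k3 ι f).1 ≠ 0 := by
    rcases hf.2 with h | h
    · left
      have h' : ι (algebraMap F[X] (RatFunc F) (C (3 : F))) ≠ 0 := by
        rw [_root_.map_ne_zero]
        simpa using h
      have h3 : ι (algebraMap F[X] (RatFunc F) (C (3 : F))) = (3 : L) := by
        rw [show (3 : F) = ((3 : ℕ) : F) by norm_num, map_natCast, map_natCast, map_natCast]
        norm_num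
      rw [← h3]
      exact h'
    · right
      simp only [k3, AVS.kf]
      rw [_root_.map_ne_zero]
      simpa using h
  have : Infinite L := Infinite.of_injective
    (fun p : F[X] => ι (algebraMap F[X] (RatFunc F) p))
    (ι.injective.comp (RatFunc.algebraMap_injective F))
  have h2L : (2 : L) ≠ 0 := hcomp.loc.two.1
  have hinf : Infinite (PtT (k3 ι f)) := hINF3 L O (ι (algebraMap F[X] (RatFunc F) X))
    hcomp.loc (k3 ι f) hdisc
  refine stb_transfer ι c 9 (fun T hT hne => ?_) T hT hne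
  exact (hSTL L h2L (k3 ι f) hdisc h3 hinf _ hcls T hT hne).trans
    (hTOR3 L h2L (k3 ι f) hdisc).2

end Pool.Agent.H69.AV3B
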